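import Mathlib
import Pool.Agent.W931.NegMain

set_option autoImplicit false

/-!
# The polarized relation for `ℵ₂ × ℵ₃` and sets of sizes `ℵ₂`, `ℵ₁` is independent of ZFC and GCH
-/

namespace Pool.Agent.Results.MP_9ed2bb_lc.Independence

open Cardinal Pool.Agent.Helper669.Forcing Pool.Agent.Helper669.K Pool.Agent.Helper669.U
  Pool.Agent.Helper669.V

/-- Assume GCH. (1) Some forcing notion forces that all cardinals (and all regular cardinals)
of the ground model remain such, that GCH holds, and that the polarized relation for `ℵ₂ × ℵ₃`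
with sets of sizes `ℵ₂` and `ℵ₁` in both colours fails. (2) If `κ` is a huge cardinal with target
`m`, some forcing notion forces that `κ = ℵ₂` and `m = ℵ₃` (`ℵ₁`, `κ`, `m` and all regular
cardinals above `m` stay regular, every cardinal below `κ` has cardinality at most `ℵ₁`, every
cardinal below `m` has cardinality at most `κ`), that GCH holds, and that this relation holds. -/
theorem result (hGCH : ∀ ν : Cardinal.{0}, ℵ₀ ≤ ν → 2 ^ ν = Order.succ ν) :
    (∃ (P : Type) (_ : Preorder P), Nonempty P ∧ ∀ p : P,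
      p ∈ CardinalsPreserved.{0, 0} P ∧ (∀ ν : Cardinal.{0}, ν.IsRegular → p ∈ StaysRegular P ν) ∧
      p ∈ ForcesGCH P ∧
      p ∈ fnot (PolarizedRel P (ℵ_ 2 : Cardinal.{0}).ord.ToType (ℵ_ 3 : Cardinal.{0}).ord.ToType
        (ℵ₁ : Cardinal.{0}).ord.ToType)) ∧
    (∀ κ m : Cardinal.{0}, IsHuge κ m →
      ∃ (P : Type) (_ : Preorder P), Nonempty P ∧ ∀ p : P,
        p ∈ StaysRegular P ℵ₁ ∧ p ∈ StaysRegular P κ ∧ m.IsRegular ∧
        (∀ μ : Cardinal.{0}, μ.IsRegular → m ≤ μ → p ∈ StaysRegular P μ) ∧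
        p ∈ CollapsedTo P ℵ₁ κ ∧ p ∈ CollapsedTo P κ m ∧ p ∈ ForcesGCH P ∧
        p ∈ PolarizedRel P κ.ord.ToType m.ord.ToType (ℵ₁ : Cardinal.{0}).ord.ToType) := by
  have h2 : (ℵ_ 2 : Cardinal.{0}) = Order.succ ℵ₁ := by
    rw [← Cardinal.aleph_succ, ← Ordinal.add_one_eq_succ, one_add_one_eq_two]
  have h3 : (ℵ_ 3 : Cardinal.{0}) = Order.succ (Order.succ ℵ₁) := by
    rw [← h2, ← Cardinal.aleph_succ, ← Ordinal.add_one_eq_succ, two_add_one_eq_three]
  refine ⟨?_, ?_⟩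
  · rw [h2, h3]
    exact Pool.Agent.W931.Neg.neg_main hGCH ℵ₁ (aleph0_le_aleph 1)
  · intro κ m h
    obtain ⟨P, i, h1, h2⟩ := huge_iteration_gch h hGCH
    refine ⟨P, i, h1, fun p => ?_⟩
    obtain ⟨a, b, c, d, e, f, -, g⟩ := h2 p
    exact ⟨a, b, c.1, c.2, d, e, f, g⟩

end Pool.Agent.Results.MP_9ed2bb_lc.Independence
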